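import Pool.Agent.H207.BT.Stm
import Pool.Agent.H249.HY211.SCALE

/-!
# Good scales in small windows (helper685, for helper207; after helper249 and helper721)
-/

set_option autoImplicit false

namespace Pool.Agent.H685.BT207

open Finset
open Pool.Agent.H249.HY211 (exists_N count1 close_le count2)

/-- good scales in small windows, dyadic form -/
theorem scale3 (C c μ : ℝ) (p x : ℕ → ℝ) (hC : 1 ≤ C) (hc : 0 < c) (hμ : 1 < μ)
    (h0 : p 0 = 1) (hp : ∀ n, c * μ ^ n ≤ p n) (hx : ∀ n, 0 < x n ∧ x n ≤ 1)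
    (hrec : ∀ n, p (n + 1) ≤ C * x n * p n) (β : ℝ) (hβ0 : 0 < β) (hβ1 : β ≤ 1)
    (θ : ℝ) (hθ : 0 < θ) (A : ℝ) :
    ∃ ε > (0 : ℝ), ∃ n₀ : ℕ, ∀ n ≥ n₀, ∃ m : ℕ, n + 1 ≤ m ∧ (m : ℝ) ≤ n * (1 + β) ∧
      ∃ N : ℕ, ∑ j ∈ Finset.range N, (1 / 2 : ℝ) ^ m * p j / x j ≤ θ ∧
        (ε ≤ (1 / 2 : ℝ) ^ m * p N ∨ A * x N ≤ (1 / 2 : ℝ) ^ m * p N) := by
  classical
  obtain ⟨a, ha⟩ := pow_unbounded_of_one_lt (2 : ℝ) hμ
  obtain ⟨G, hG⟩ := exists_nat_ge (1 / β)
  have hG0 : (1 : ℝ) ≤ G := le_trans (by rw [le_div_iff₀ hβ0]; linarith) hG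
  have hGβ : 1 ≤ G * β := by
    rw [div_le_iff₀ hβ0] at hG
    exact hG
  obtain ⟨θ', hθ'⟩ : ∃ θ' : ℝ, θ' = θ * β / (16 * (a + 1)) := ⟨_, rfl⟩
  have hθ'0 : 0 < θ' := by
    rw [hθ']
    positivity
  obtain ⟨b, hb⟩ := pow_unbounded_of_one_lt (θ' / c) hμ
  obtain ⟨w, hw⟩ := pow_unbounded_of_one_lt (A / θ') (by norm_num : (1 : ℝ) < 2)
  have hw' : A ≤ θ' * 2 ^ w := by
    rw [div_lt_iff₀ hθ'0] at hw
    linarith
  obtain ⟨L, hL⟩ : ∃ L : ℕ, L = 8 * (w + 1) * (a + 1) * G := ⟨_, rfl⟩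
  have hD : 1 < C + 1 := by linarith
  obtain ⟨e, he⟩ := pow_unbounded_of_one_lt (1 / c) hD
  have he' : 1 ≤ c * (C + 1) ^ e := by
    rw [div_lt_iff₀ hc] at he
    linarith
  obtain ⟨S, hS⟩ : ∃ S : ℝ, S = ((C + 1)⁻¹) ^ L := ⟨_, rfl⟩
  have hS0 : 0 < S := by
    rw [hS]
    positivity
  have hq0 : ∀ n, 0 < p n := fun n => lt_of_lt_of_le (by positivity) (hp n)
  have hpc : ∀ n, c ≤ p n := fun n =>
    le_trans (le_mul_of_one_le_right hc.le (one_le_pow₀ hμ.le)) (hp n)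
  have hpq : ∀ n, p n ≤ p n / x n := fun n => by
    rw [le_div_iff₀ (hx n).1]
    exact mul_le_of_le_one_right (hq0 n).le (hx n).2
  have hqpos : ∀ n, 0 < p n / x n := fun n => div_pos (hq0 n) (hx n).1
  have hbig : ∀ m, θ' * 2 ^ m < p (a * m + b) / x (a * m + b) := by
    intro m
    refine lt_of_lt_of_le ?_ ((hp (a * m + b)).trans (hpq _))
    have h1 : θ' < c * μ ^ b := by
      rw [div_lt_iff₀ hc] at hb
      linarith
    calc θ' * 2 ^ m < (c * μ ^ b) * 2 ^ m := mul_lt_mul_of_pos_right h1 (by positivity)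
      _ ≤ (c * μ ^ b) * (μ ^ a) ^ m :=
          mul_le_mul_of_nonneg_left (pow_le_pow_left₀ (by norm_num) ha.le m) (by positivity)
      _ = c * μ ^ (a * m + b) := by rw [pow_add, pow_mul]; ring
  obtain ⟨N, hN1, hN2, hN3⟩ := exists_N (fun n => p n / x n) θ' a b hbig
  have hLpos : (0 : ℝ) < L := by
    rw [hL]
    push_cast
    have hG1 : (0 : ℝ) < G := by linarith
    positivity
  have hapos : (0 : ℝ) ≤ a := Nat.cast_nonneg a
  have hwpos : (0 : ℝ) ≤ w := Nat.cast_nonneg w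
  obtain ⟨K, hK⟩ : ∃ K : ℝ, K = b * (2 * θ') / θ + w * (b + 1 + e) / L := ⟨_, rfl⟩
  have hK0 : 0 ≤ K := by
    rw [hK]
    positivity
  refine ⟨θ' * S, by positivity, ⌈(3 + 2 * K) / β⌉₊ + 1, fun n hn => ?_⟩
  have hnK : 3 + 2 * K < n * β := by
    have h1 : (3 + 2 * K) / β ≤ (⌈(3 + 2 * K) / β⌉₊ : ℝ) := Nat.le_ceil _
    have h2 : (⌈(3 + 2 * K) / β⌉₊ : ℝ) + 1 ≤ n := by exact_mod_cast hn
    rw [← div_lt_iff₀ hβ0]
    linarith
  have hn0 : (0 : ℝ) ≤ n := Nat.cast_nonneg n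
  obtain ⟨M, hM⟩ : ∃ M : ℕ, M = ⌊(n : ℝ) * (1 + β)⌋₊ + 1 := ⟨_, rfl⟩
  have hM1 : (n : ℝ) * (1 + β) ≤ M := by
    rw [hM]
    push_cast
    exact (Nat.lt_floor_add_one _).le
  have hM2 : (M : ℝ) ≤ 2 * (n + 1) := by
    have h1 : (⌊(n : ℝ) * (1 + β)⌋₊ : ℝ) ≤ n * (1 + β) := Nat.floor_le (by positivity)
    rw [hM]
    push_cast
    nlinarith
  have hM3 : ∀ m < M, (m : ℝ) ≤ n * (1 + β) := by
    intro m hm
    rw [hM] at hm
    have h1 : (⌊(n : ℝ) * (1 + β)⌋₊ : ℝ) ≤ n * (1 + β) := Nat.floor_le (by positivity)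
    have h2 : (m : ℝ) ≤ (⌊(n : ℝ) * (1 + β)⌋₊ : ℝ) := by
      exact_mod_cast Nat.lt_succ_iff.1 hm
    linarith
  -- the bad scales
  obtain ⟨B1, hB1d⟩ : ∃ B1 : Finset ℕ, B1 = (range M).filter fun m =>
      θ < ∑ j ∈ range (N m), (p j / x j) / 2 ^ m := ⟨_, rfl⟩
  obtain ⟨B2, hB2d⟩ : ∃ B2 : Finset ℕ, B2 = (range M).filter fun m =>
      x (N m) < S ∧ p (N m) / x (N m) ≤ A * 2 ^ m := ⟨_, rfl⟩
  have hB1 : (B1.card : ℝ) * θ ≤ (a * M + b) * (2 * θ') := by
    rw [hB1d]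
    exact count1 (fun n => (hqpos n).le) hθ'0.le hN1 hN2 M θ
  have hB2 : L * B2.card ≤ w * (a * M + b + 1 + e) := by
    have h1 : B2.card ≤ w * ((range (a * M + b + 1)).filter fun j => x j < S).card := by
      rw [hB2d]
      exact count2 (q := fun n => p n / x n) (x := x) (S := S) hθ'0 hw' hN1 hN3 M
    have h2 : L * ((range (a * M + b + 1)).filter fun j => x j < S).card ≤
        a * M + b + 1 + e := by
      rw [hS]
      exact close_le hC hD (by linarith) hc he' h0 hpc hx hrec (a * M + b + 1)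
    calc L * B2.card ≤
        L * (w * ((range (a * M + b + 1)).filter fun j => x j < S).card) :=
          Nat.mul_le_mul_left L h1
      _ = w * (L * ((range (a * M + b + 1)).filter fun j => x j < S).card) := by ring
      _ ≤ w * (a * M + b + 1 + e) := Nat.mul_le_mul_left w h2
  have c1 : (B1.card : ℝ) ≤ β * (n + 1) / 4 + b * (2 * θ') / θ := by
    have h1 := hB1
    rw [← le_div_iff₀ hθ] at h1
    refine h1.trans ?_
    have h2 : (a * (M : ℝ) + b) * (2 * θ') / θ =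
        a * M * (2 * θ') / θ + b * (2 * θ') / θ := by ring
    rw [h2]
    refine add_le_add_left ?_ _
    have h3 : a * (M : ℝ) * (2 * θ') / θ = (β * M / 8) * (a / (a + 1)) := by
      rw [hθ']
      field_simp
      ring
    rw [h3]
    refine (mul_le_of_le_one_right (by positivity) ?_).trans ?_
    · rw [div_le_one (by positivity)]
      linarith
    · nlinarith
  have c2 : (B2.card : ℝ) ≤ β * (n + 1) / 4 + w * (b + 1 + e) / L := by
    have h1 : (L : ℝ) * B2.card ≤ w * (a * M + b + 1 + e) := by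
      exact_mod_cast hB2
    rw [mul_comm, ← le_div_iff₀ hLpos] at h1
    refine h1.trans ?_
    have h2 : (w : ℝ) * (a * M + b + 1 + e) / L =
        w * a * M / L + w * (b + 1 + e) / L := by ring
    rw [h2]
    refine add_le_add_left ?_ _
    rw [div_le_iff₀ hLpos]
    have h3 : (w : ℝ) * a * M ≤ (w + 1) * (a + 1) * (2 * (n + 1)) := by
      refine mul_le_mul ?_ hM2 (Nat.cast_nonneg M) (by positivity)
      exact mul_le_mul (by linarith) (by linarith) hapos (by positivity)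
    refine h3.trans ?_
    rw [hL]
    push_cast
    have h4 : β * (n + 1) / 4 * (8 * ((w : ℝ) + 1) * (a + 1) * G) =
        ((w : ℝ) + 1) * (a + 1) * (2 * (n + 1)) * (G * β) := by ring
    rw [h4]
    exact le_mul_of_one_le_right (by positivity) hGβ
  have hex : ∃ m ∈ range M, m ∉ range (n + 1) ∪ (B1 ∪ B2) := by
    by_contra hcon
    push Not at hcon
    have h1 : range M ⊆ range (n + 1) ∪ (B1 ∪ B2) := fun m hm => hcon m hm
    have h2 := (Finset.card_le_card h1).trans (Finset.card_union_le _ _)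
    have h3 := h2.trans (Nat.add_le_add_left (Finset.card_union_le B1 B2) _)
    rw [Finset.card_range, Finset.card_range] at h3
    have h4 : (M : ℝ) ≤ (n + 1) + (B1.card + B2.card) := by exact_mod_cast h3
    have h5 : (n : ℝ) * (1 + β) ≤ (n + 1) + (β * (n + 1) / 4 + b * (2 * θ') / θ +
        (β * (n + 1) / 4 + w * (b + 1 + e) / L)) := by linarith
    have h6 : (n : ℝ) * (1 + β) ≤ (n + 1) + (β * (n + 1) / 2 + K) := by
      rw [hK]
      linarith
    nlinarith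
  obtain ⟨m, hmM, hm⟩ := hex
  rw [Finset.mem_union, not_or, Finset.mem_union, not_or] at hm
  obtain ⟨hm1, hm2, hm3⟩ := hm
  have hmn : n + 1 ≤ m := by
    rw [Finset.mem_range, not_lt] at hm1
    exact hm1
  refine ⟨m, hmn, hM3 m (Finset.mem_range.1 hmM), N m, ?_, ?_⟩
  · have h2 : ¬ θ < ∑ j ∈ range (N m), (p j / x j) / 2 ^ m := fun h => hm2 (by
      rw [hB1d]
      exact Finset.mem_filter.2 ⟨hmM, h⟩)
    refine le_trans (le_of_eq ?_) (not_lt.1 h2)
    refine Finset.sum_congr rfl fun j _ => ?_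
    rw [one_div, inv_pow]
    ring
  · have hxpos := (hx (N m)).1
    have e1 : (1 / 2 : ℝ) ^ m * p (N m) =
        ((p (N m) / x (N m)) / 2 ^ m) * x (N m) := by
      rw [one_div, inv_pow]
      field_simp
    rw [e1]
    rcases lt_or_ge (x (N m)) S with h | h
    · right
      have h2 : ¬ p (N m) / x (N m) ≤ A * 2 ^ m := fun h' => hm3 (by
        rw [hB2d]
        exact Finset.mem_filter.2 ⟨hmM, h, h'⟩)
      refine mul_le_mul_of_nonneg_right ?_ hxpos.le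
      rw [le_div_iff₀ (by positivity)]
      exact (not_le.1 h2).le
    · left
      refine mul_le_mul ?_ h hS0.le (by have := hqpos (N m); positivity)
      rw [le_div_iff₀ (by positivity)]
      exact (hN3 m).le

theorem t_SCALE3 : Pool.Agent.H207.BT.S_SCALE3 := by
  intro C c μ p x hC hc hμ h0 hp hx hrec α hα θ hθ A _
  have hβ0 : 0 < min α 1 := lt_min hα one_pos
  obtain ⟨ε, hε, n₀, h⟩ := scale3 C c μ p x hC hc hμ h0 hp hx hrec (min α 1) hβ0
    (min_le_right _ _) θ hθ A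
  refine ⟨ε, hε, (1 / 2 : ℝ) ^ (n₀ + 1), by positivity, fun r hr0 hr => ?_⟩
  have hr1 : r ≤ 1 := hr.trans (pow_le_one₀ (by norm_num) (by norm_num))
  obtain ⟨n, hn1, hn2⟩ := exists_nat_pow_near_of_lt_one hr0 hr1
    (show (0 : ℝ) < 1 / 2 by norm_num) (by norm_num)
  have hn : n ≥ n₀ := by
    by_contra hlt
    have h1 : n + 1 ≤ n₀ + 1 := by omega
    have h2 : (1 / 2 : ℝ) ^ (n₀ + 1) ≤ (1 / 2 : ℝ) ^ (n + 1) :=
      pow_le_pow_of_le_one (by norm_num) (by norm_num) h1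
    linarith
  obtain ⟨m, hm1, hm2, N, hN1, hN2⟩ := h n hn
  refine ⟨(1 / 2 : ℝ) ^ m, ?_, ?_, N, hN1, hN2⟩
  · calc r ^ (1 + α) ≤ r ^ (1 + min α 1) :=
          Real.rpow_le_rpow_of_exponent_ge hr0 hr1 (by linarith [min_le_left α 1])
      _ ≤ ((1 / 2 : ℝ) ^ n) ^ (1 + min α 1) :=
          Real.rpow_le_rpow hr0.le hn2 (by linarith)
      _ = (1 / 2 : ℝ) ^ ((n : ℝ) * (1 + min α 1)) := by
          rw [← Real.rpow_natCast, ← Real.rpow_mul (by norm_num)]
      _ ≤ (1 / 2 : ℝ) ^ (m : ℝ) :=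
          Real.rpow_le_rpow_of_exponent_ge (by norm_num) (by norm_num) hm2
      _ = (1 / 2 : ℝ) ^ m := Real.rpow_natCast _ _
  · exact (pow_le_pow_of_le_one (by norm_num) (by norm_num) hm1).trans hn1.le

end Pool.Agent.H685.BT207

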